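import Mathlib

/-!
# Edge-number sets of edge-maximal minor-free graphs: both questions have a negative answer

The set consisting of the path on four vertices and the claw refutes Q1 and Q2.
-/

set_option autoImplicit false

namespace Pool.Agent.Results.MP_4dddeb_co.ThreeVertexComponents

open Filter

/-- H is a minor of G, in branch-set form: the vertices of H are represented by pairwise disjoint
non-empty connected vertex sets of G, and adjacent vertices of H by sets joined by an edge of G. -/
def IsMinor {W V : Type} (H : SimpleGraph W) (G : SimpleGraph V) : Prop :=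
  ∃ B : W → Set V, (∀ w, (G.induce (B w)).Connected) ∧
    (∀ w w', w ≠ w' → Disjoint (B w) (B w')) ∧
    (∀ w w', H.Adj w w' → ∃ x ∈ B w, ∃ y ∈ B w', G.Adj x y)

/-- A finite simple graph, up to isomorphism: a number m and a graph with vertex set Fin m. -/
abbrev FinGraph : Type := Σ m : ℕ, SimpleGraph (Fin m)

/-- A suitable set: non-empty, and each of its members has at least one edge. -/
def Suitable (ℋ : Set FinGraph) : Prop :=
  ℋ.Nonempty ∧ ∀ H ∈ ℋ, ∃ u v, H.2.Adj u v

/-- G has no minor in ℋ. -/
def Free (ℋ : Set FinGraph) {V : Type} (G : SimpleGraph V) : Prop :=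
  ∀ H ∈ ℋ, ¬ IsMinor H.2 G

/-- G is edge-maximal ℋ-free: it is ℋ-free, and adding any missing edge uv makes it not
ℋ-free. -/
def EdgeMaximal (ℋ : Set FinGraph) {V : Type} (G : SimpleGraph V) : Prop :=
  Free ℋ G ∧ ∀ u v : V, u ≠ v → ¬ G.Adj u v → ¬ Free ℋ (G ⊔ SimpleGraph.edge u v)

/-- The set of the numbers of edges of the edge-maximal ℋ-free graphs on n vertices. -/
def edgeNumbers (ℋ : Set FinGraph) (n : ℕ) : Set ℕ :=
  {m | ∃ G : SimpleGraph (Fin n), EdgeMaximal ℋ G ∧ G.edgeSet.ncard = m}

/-- The gap: largest minus smallest number of edges of an edge-maximal ℋ-free graph on n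
vertices. -/
noncomputable def gap (ℋ : Set FinGraph) (n : ℕ) : ℕ :=
  sSup (edgeNumbers ℋ n) - sInf (edgeNumbers ℋ n)

/-- The path on four vertices. -/
def pathFour : FinGraph := ⟨4, SimpleGraph.pathGraph 4⟩

/-- The claw, a star with three leaves. -/
def claw : FinGraph := ⟨4, SimpleGraph.starGraph 0⟩

/-- The excluded set. -/
def excl : Set FinGraph := {pathFour, claw}

/-! ## Small components -/

section small

variable {V : Type}

/-- Each vertex lies in a set of at most three vertices closed under adjacency. -/
def Small (G : SimpleGraph V) : Prop :=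
  ∀ v, ∃ S : Finset V, v ∈ S ∧ S.card ≤ 3 ∧ ∀ a ∈ S, ∀ b, G.Adj a b → b ∈ S

theorem closed_reach (G : SimpleGraph V) (S : Finset V) (hS : ∀ a ∈ S, ∀ b, G.Adj a b → b ∈ S)
    {a b : V} (ha : a ∈ S) (h : G.Reachable a b) : b ∈ S := by
  obtain ⟨p⟩ := h
  induction p with
  | nil => exact ha
  | cons hadj _ ih => exact ih (hS _ ha _ hadj)

theorem small_not_minor (G : SimpleGraph V) (hG : Small G) (H : SimpleGraph (Fin 4))
    (hH : H.Connected) : ¬ IsMinor H G := by
  classical
  rintro ⟨B, hB1, hB2, hB3⟩
  have hne : ∀ i, ∃ x, x ∈ B i := fun i => by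
    obtain ⟨x⟩ := (hB1 i).nonempty
    exact ⟨x.1, x.2⟩
  choose x hx using hne
  have hin : ∀ i, ∀ a ∈ B i, ∀ b ∈ B i, G.Reachable a b := by
    intro i a ha b hb
    have h := (hB1 i).preconnected ⟨a, ha⟩ ⟨b, hb⟩
    exact h.map (SimpleGraph.Embedding.induce (B i)).toHom
  have hadj : ∀ i j, H.Adj i j → G.Reachable (x i) (x j) := by
    intro i j hij
    obtain ⟨a, ha, b, hb, hab⟩ := hB3 i j hij
    exact ((hin i _ (hx i) _ ha).trans hab.reachable).trans (hin j _ hb _ (hx j))
  have hall' : ∀ i j, H.Reachable i j → G.Reachable (x i) (x j) := by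
    rintro i j ⟨p⟩
    induction p with
    | nil => exact SimpleGraph.Reachable.refl _
    | cons h _ ih => exact (hadj _ _ h).trans ih
  have hall : ∀ i, G.Reachable (x 0) (x i) := fun i => hall' 0 i (hH.preconnected 0 i)
  obtain ⟨S, h0, hcard, hS⟩ := hG (x 0)
  have hinj : Function.Injective x := by
    intro i j hij
    by_contra hne
    exact Set.disjoint_left.1 (hB2 i j hne) (hx i) (hij ▸ hx j)
  have hsub : Finset.univ.image x ⊆ S := by
    intro y hy
    simp only [Finset.mem_image, Finset.mem_univ, true_and] at hy
    obtain ⟨i, rfl⟩ := hy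
    exact closed_reach G S hS h0 (hall i)
  have h1 := Finset.card_le_card hsub
  rw [Finset.card_image_of_injective _ hinj, Finset.card_univ, Fintype.card_fin] at h1
  omega

theorem small_free (G : SimpleGraph V) (hG : Small G) : Free excl G := by
  intro H hH
  rcases hH with rfl | rfl
  · exact small_not_minor G hG _ (SimpleGraph.pathGraph_connected 3)
  · exact small_not_minor G hG _ (SimpleGraph.connected_starGraph 0)

theorem minor_of_inj {W : Type} (H : SimpleGraph W) (G : SimpleGraph V) (f : W → V)
    (hf : Function.Injective f) (h : ∀ w w', H.Adj w w' → G.Adj (f w) (f w')) : IsMinor H G := by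
  refine ⟨fun w => {f w}, ?_, ?_, ?_⟩
  · intro w
    have : Nonempty ({f w} : Set V) := ⟨⟨f w, rfl⟩⟩
    refine ⟨?_⟩
    rintro ⟨a, ha⟩ ⟨b, hb⟩
    have ha' : a = f w := ha
    have hb' : b = f w := hb
    subst ha'; subst hb'
    exact SimpleGraph.Reachable.refl _
  · intro w w' hne
    rw [Set.disjoint_singleton]
    exact fun h => hne (hf h)
  · intro w w' hadj
    exact ⟨f w, rfl, f w', rfl, h w w' hadj⟩

theorem inj4 {a b c d : V} (h1 : a ≠ b) (h2 : a ≠ c) (h3 : a ≠ d) (h4 : b ≠ c) (h5 : b ≠ d)
    (h6 : c ≠ d) : Function.Injective ![a, b, c, d] := by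
  intro i j
  fin_cases i <;> fin_cases j <;> simp [h1, h2, h3, h4, h5, h6, h1.symm, h2.symm, h3.symm,
    h4.symm, h5.symm, h6.symm]

theorem free_noclaw (G : SimpleGraph V) (hG : Free excl G) {v a b c : V} (hab : a ≠ b)
    (hac : a ≠ c) (hbc : b ≠ c) (ha : G.Adj v a) (hb : G.Adj v b) (hc : G.Adj v c) : False := by
  have key : ∀ i j : Fin 4, (SimpleGraph.starGraph (0 : Fin 4)).Adj i j →
      G.Adj (![v, a, b, c] i) (![v, a, b, c] j) := by
    intro i j hij
    rw [SimpleGraph.starGraph_adj] at hij
    obtain ⟨hne, h⟩ := hij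
    fin_cases i <;> fin_cases j <;> simp_all [G.adj_comm]
  exact hG claw (Or.inr rfl) (minor_of_inj (SimpleGraph.starGraph (0 : Fin 4)) G ![v, a, b, c]
    (inj4 ha.ne hb.ne hc.ne hab hac hbc) key)

theorem free_nopath (G : SimpleGraph V) (hG : Free excl G) {a b c d : V} (hac : a ≠ c)
    (had : a ≠ d) (hbd : b ≠ d) (hab : G.Adj a b) (hbc : G.Adj b c) (hcd : G.Adj c d) :
    False := by
  have key : ∀ i j : Fin 4, (SimpleGraph.pathGraph 4).Adj i j →
      G.Adj (![a, b, c, d] i) (![a, b, c, d] j) := by
    intro i j hij
    rw [SimpleGraph.pathGraph_adj] at hij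
    fin_cases i <;> fin_cases j <;> simp_all [G.adj_comm]
  exact hG pathFour (Or.inl rfl) (minor_of_inj (SimpleGraph.pathGraph 4) G ![a, b, c, d]
    (inj4 hab.ne hac had hbc.ne hbd hcd.ne) key)

theorem free_small (G : SimpleGraph V) (hG : Free excl G) : Small G := by
  classical
  intro v
  by_cases h1 : ∃ a, G.Adj v a
  · obtain ⟨a, ha⟩ := h1
    by_cases h2 : ∃ b, b ≠ a ∧ G.Adj v b
    · obtain ⟨b, hba, hb⟩ := h2
      refine ⟨{v, a, b}, by simp, Finset.card_le_three, ?_⟩
      intro z hz c hc
      simp only [Finset.mem_insert, Finset.mem_singleton] at hz ⊢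
      by_contra hno
      push Not at hno
      obtain ⟨c1, c2, c3⟩ := hno
      rcases hz with rfl | rfl | rfl
      · exact free_noclaw G hG hba.symm c2.symm c3.symm ha hb hc
      · exact free_nopath G hG c1 c3 hba.symm hc.symm ha.symm hb
      · exact free_nopath G hG c1 c2 hba hc.symm hb.symm ha
    · push Not at h2
      by_cases h3 : ∃ b, b ≠ v ∧ G.Adj a b
      · obtain ⟨b, hbv, hb⟩ := h3
        refine ⟨{v, a, b}, by simp, Finset.card_le_three, ?_⟩
        intro z hz c hc
        simp only [Finset.mem_insert, Finset.mem_singleton] at hz ⊢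
        by_contra hno
        push Not at hno
        obtain ⟨c1, c2, c3⟩ := hno
        rcases hz with rfl | rfl | rfl
        · exact h2 c c2 hc
        · exact free_noclaw G hG hbv.symm c1.symm c3.symm ha.symm hb hc
        · exact free_nopath G hG hbv.symm c1.symm c2.symm ha hb hc
      · push Not at h3
        refine ⟨{v, a}, by simp, (Finset.card_le_two).trans (by norm_num), ?_⟩
        intro z hz c hc
        simp only [Finset.mem_insert, Finset.mem_singleton] at hz ⊢
        by_contra hno
        push Not at hno
        obtain ⟨c1, c2⟩ := hno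
        rcases hz with rfl | rfl
        · exact h2 c c2 hc
        · exact h3 c c1 hc
  · push Not at h1
    refine ⟨{v}, by simp, by simp, ?_⟩
    intro z hz c hc
    rw [Finset.mem_singleton] at hz
    subst hz
    exact absurd hc (h1 c)

/-- Adding an edge inside a closed set of at most three vertices. -/
theorem small_add (G : SimpleGraph V) (hG : Small G) (S : Finset V) (hcard : S.card ≤ 3)
    (hS : ∀ a ∈ S, ∀ b, G.Adj a b → b ∈ S) {u v : V} (hu : u ∈ S) (hv : v ∈ S) :
    Small (G ⊔ SimpleGraph.edge u v) := by
  classical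
  intro z
  by_cases hz : z ∈ S
  · refine ⟨S, hz, hcard, ?_⟩
    intro a ha b hab
    rw [SimpleGraph.sup_adj, SimpleGraph.edge_adj] at hab
    rcases hab with hab | ⟨h | h, -⟩
    · exact hS a ha b hab
    · rw [h.2]; exact hv
    · rw [h.2]; exact hu
  · obtain ⟨T, hzT, hT, hTc⟩ := hG z
    refine ⟨T \ S, by simp [hzT, hz], (Finset.card_le_card Finset.sdiff_subset).trans hT, ?_⟩
    intro a ha b hab
    rw [Finset.mem_sdiff] at ha ⊢
    rw [SimpleGraph.sup_adj, SimpleGraph.edge_adj] at hab
    rcases hab with hab | ⟨h | h, -⟩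
    · exact ⟨hTc a ha.1 b hab, fun hb => ha.2 (hS b hb a hab.symm)⟩
    · exact absurd (h.1 ▸ hu) ha.2
    · exact absurd (h.1 ▸ hv) ha.2

theorem max_trans (G : SimpleGraph V) (hG : EdgeMaximal excl G) {u v w : V} (huv : G.Adj u v)
    (hvw : G.Adj v w) (huw : u ≠ w) : G.Adj u w := by
  classical
  by_contra hno
  refine hG.2 u w huw hno (small_free _ (small_add G (free_small G hG.1) {u, v, w}
    Finset.card_le_three ?_ (by simp) (by simp)))
  intro z hz c hc
  simp only [Finset.mem_insert, Finset.mem_singleton] at hz ⊢
  by_contra hno2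
  push Not at hno2
  obtain ⟨c1, c2, c3⟩ := hno2
  rcases hz with rfl | rfl | rfl
  · exact free_nopath G hG.1 c2 c3 huw hc.symm huv hvw
  · exact free_noclaw G hG.1 huw c1.symm c3.symm huv.symm hvw hc
  · exact free_nopath G hG.1 huw c1.symm c2.symm huv hvw hc

theorem max_isolated (G : SimpleGraph V) (hG : EdgeMaximal excl G) {u v : V} (huv : u ≠ v)
    (hv : ∀ a, ¬ G.Adj v a) : ∃ a b, a ≠ b ∧ G.Adj u a ∧ G.Adj u b := by
  classical
  by_contra hno
  push Not at hno
  have hnadj : ¬ G.Adj u v := fun h => hv u h.symm
  by_cases h1 : ∃ a, G.Adj u a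
  · obtain ⟨a, ha⟩ := h1
    refine hG.2 u v huv hnadj (small_free _ (small_add G (free_small G hG.1) {u, v, a}
      Finset.card_le_three ?_ (by simp) (by simp)))
    intro z hz c hc
    simp only [Finset.mem_insert, Finset.mem_singleton] at hz ⊢
    by_contra hno2
    push Not at hno2
    obtain ⟨c1, c2, c3⟩ := hno2
    rcases hz with rfl | rfl | rfl
    · exact hno a c c3.symm ha hc
    · exact hv c hc
    · exact hno z c c3.symm ha (max_trans G hG ha hc c1.symm)
  · push Not at h1
    refine hG.2 u v huv hnadj (small_free _ (small_add G (free_small G hG.1) {u, v}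
      ((Finset.card_le_two).trans (by norm_num)) ?_ (by simp) (by simp)))
    intro z hz c hc
    simp only [Finset.mem_insert, Finset.mem_singleton] at hz ⊢
    rcases hz with rfl | rfl
    · exact absurd hc (h1 c)
    · exact absurd hc (hv c)

end small

/-! ## Counting edges -/

section count

variable {n : ℕ}

open Classical in
theorem two_mul_ncard (G : SimpleGraph (Fin n)) :
    2 * G.edgeSet.ncard = ∑ v, G.degree v := by
  rw [SimpleGraph.sum_degrees_eq_twice_card_edges, Set.ncard_eq_toFinset_card']
  rfl

open Classical in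
theorem deg_le_two (G : SimpleGraph (Fin n)) (hG : Free excl G) (v : Fin n) :
    G.degree v ≤ 2 := by
  by_contra h
  push Not at h
  rw [← SimpleGraph.card_neighborFinset_eq_degree, Finset.two_lt_card] at h
  obtain ⟨a, ha, b, hb, c, hc, hab, hac, hbc⟩ := h
  rw [SimpleGraph.mem_neighborFinset] at ha hb hc
  exact free_noclaw G hG hab hac hbc ha hb hc

open Classical in
theorem three_dvd (G : SimpleGraph (Fin n)) (hG : EdgeMaximal excl G) :
    3 ∣ (Finset.univ.filter (fun v => G.degree v = 2)).card := by
  set S := Finset.univ.filter (fun v => G.degree v = 2) with hS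
  let f : Fin n → Finset (Fin n) := fun v => insert v (G.neighborFinset v)
  have hfmem : ∀ v w, w ∈ f v ↔ w = v ∨ G.Adj v w := by
    intro v w
    simp [f]
  have hfcard : ∀ v, (f v).card = G.degree v + 1 := by
    intro v
    simp only [f]
    rw [Finset.card_insert_of_notMem, SimpleGraph.card_neighborFinset_eq_degree]
    simp
  have hfeq : ∀ v a, a ∈ f v → f a = f v := by
    intro v a ha
    rw [hfmem] at ha
    rcases ha with rfl | ha
    · rfl
    · ext c
      rw [hfmem, hfmem]
      constructor
      · rintro (rfl | hc)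
        · exact Or.inr ha
        · by_cases hcv : c = v
          · exact Or.inl hcv
          · exact Or.inr (max_trans G hG ha hc (fun h => hcv h.symm))
      · rintro (rfl | hc)
        · exact Or.inr ha.symm
        · by_cases hca : c = a
          · exact Or.inl hca
          · exact Or.inr (max_trans G hG ha.symm hc (fun h => hca h.symm))
  rw [Finset.card_eq_sum_card_image f S]
  apply Finset.dvd_sum
  intro b hb
  rw [Finset.mem_image] at hb
  obtain ⟨v, hv, rfl⟩ := hb
  have hv2 : G.degree v = 2 := by
    rw [hS, Finset.mem_filter] at hv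
    exact hv.2
  have : S.filter (fun a => f a = f v) = f v := by
    ext a
    rw [Finset.mem_filter]
    constructor
    · rintro ⟨-, h⟩
      rw [← h, hfmem]
      exact Or.inl rfl
    · intro h
      have h1 := hfeq v a h
      refine ⟨?_, h1⟩
      rw [hS, Finset.mem_filter]
      refine ⟨Finset.mem_univ _, ?_⟩
      have h2 := hfcard a
      rw [h1, hfcard v] at h2
      omega
  rw [this, hfcard, hv2]

open Classical in
theorem max_edges (G : SimpleGraph (Fin n)) (hG : EdgeMaximal excl G) :
    (3 ∣ (Finset.univ.filter (fun v => G.degree v = 2)).card ∧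
      2 * G.edgeSet.ncard = n + (Finset.univ.filter (fun v => G.degree v = 2)).card) ∨
    G.edgeSet.ncard + 1 = n := by
  by_cases hiso : ∃ v, G.degree v = 0
  · right
    obtain ⟨v, hv⟩ := hiso
    have hv' : ∀ a, ¬ G.Adj v a := by
      intro a ha
      have : a ∈ G.neighborFinset v := by rwa [SimpleGraph.mem_neighborFinset]
      rw [← SimpleGraph.card_neighborFinset_eq_degree, Finset.card_eq_zero] at hv
      rw [hv] at this
      exact absurd this (Finset.notMem_empty _)
    have hother : ∀ u, u ≠ v → G.degree u = 2 := by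
      intro u hu
      obtain ⟨a, b, hab, ha, hb⟩ := max_isolated G hG hu hv'
      apply le_antisymm (deg_le_two G hG.1 u)
      rw [← SimpleGraph.card_neighborFinset_eq_degree]
      have : ({a, b} : Finset (Fin n)) ⊆ G.neighborFinset u := by
        intro c hc
        simp only [Finset.mem_insert, Finset.mem_singleton] at hc
        rw [SimpleGraph.mem_neighborFinset]
        rcases hc with rfl | rfl
        · exact ha
        · exact hb
      have h2 := Finset.card_le_card this
      rwa [Finset.card_pair hab] at h2
    have h1 := two_mul_ncard G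
    rw [← Finset.add_sum_erase Finset.univ (fun v => G.degree v) (Finset.mem_univ v), hv,
      Finset.sum_congr rfl (fun u hu => hother u (Finset.mem_erase.1 hu).1)] at h1
    rw [Finset.sum_const, Finset.card_erase_of_mem (Finset.mem_univ _), Finset.card_univ,
      Fintype.card_fin, smul_eq_mul] at h1
    have := v.pos
    omega
  · left
    refine ⟨three_dvd G hG, ?_⟩
    push Not at hiso
    have h5 : ∀ v : Fin n, G.degree v = 1 + (if G.degree v = 2 then 1 else 0) := by
      intro v
      have h2 := deg_le_two G hG.1 v
      have h3 := hiso v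
      split_ifs with h4 <;> omega
    rw [two_mul_ncard, Finset.sum_congr rfl (fun v _ => h5 v), Finset.sum_add_distrib,
      ← Finset.card_filter]
    simp only [Finset.sum_const, Finset.card_univ, Fintype.card_fin, smul_eq_mul, mul_one]

/-- Disjoint union of cliques on the fibres of f. -/
def fibreGraph (f : Fin n → ℕ) : SimpleGraph (Fin n) where
  Adj i j := i ≠ j ∧ f i = f j
  symm := ⟨fun _ _ h => ⟨h.1.symm, h.2.symm⟩⟩
  loopless := ⟨fun _ h => h.1 rfl⟩

theorem fibre_max (f : Fin n → ℕ)
    (h3 : ∀ v, (Finset.univ.filter (fun w => f w = f v)).card ≤ 3)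
    (h2 : ∀ v, ∃ w, w ≠ v ∧ f w = f v) : EdgeMaximal excl (fibreGraph f) := by
  constructor
  · apply small_free
    intro v
    refine ⟨Finset.univ.filter (fun w => f w = f v), by simp, h3 v, ?_⟩
    intro a ha b hab
    simp only [Finset.mem_filter, Finset.mem_univ, true_and] at ha ⊢
    rw [← ha]; exact hab.2.symm
  · intro u v huv hnadj hfree
    have hne : f u ≠ f v := fun h => hnadj ⟨huv, h⟩
    obtain ⟨u', hu', hfu⟩ := h2 u
    obtain ⟨v', hv', hfv⟩ := h2 v
    refine free_nopath _ hfree (a := u') (b := u) (c := v) (d := v') ?_ ?_ ?_ ?_ ?_ ?_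
    · rintro rfl; exact hne hfu.symm
    · rintro rfl; exact hne (hfu.symm.trans hfv)
    · rintro rfl; exact hne hfv
    · rw [SimpleGraph.sup_adj]; exact Or.inl ⟨hu', hfu⟩
    · rw [SimpleGraph.sup_adj, SimpleGraph.edge_adj]; exact Or.inr ⟨Or.inl ⟨rfl, rfl⟩, huv⟩
    · rw [SimpleGraph.sup_adj]; exact Or.inl ⟨hv'.symm, hfv.symm⟩

theorem exists_max (b : ℕ) (hb : 2 * b ≤ n) (h3 : 3 ∣ n - 2 * b) (hn : 1 ≤ n) :
    ∃ m ∈ edgeNumbers excl n, m + b = n := by
  classical
  let f : Fin n → ℕ := fun i => if i.val < 2 * b then i.val / 2 else b + (i.val - 2 * b) / 3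
  have hf : ∀ i : Fin n, f i = if i.val < 2 * b then i.val / 2 else b + (i.val - 2 * b) / 3 :=
    fun i => rfl
  have hmax : EdgeMaximal excl (fibreGraph f) := by
    apply fibre_max
    · intro v
      let c := if v.val < 2 * b then 2 * (v.val / 2) else 2 * b + 3 * ((v.val - 2 * b) / 3)
      have hc : c = if v.val < 2 * b then 2 * (v.val / 2) else
        2 * b + 3 * ((v.val - 2 * b) / 3) := rfl
      have h1 : (Finset.univ.filter (fun w => f w = f v)).card ≤ (Finset.Icc c (c + 2)).card := by
        apply Finset.card_le_card_of_injOn Fin.val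
        · intro w hw
          simp only [Finset.coe_filter, Finset.mem_univ, true_and, Set.mem_ofPred_eq] at hw
          rw [hf, hf] at hw
          simp only [Finset.coe_Icc, Set.mem_Icc]
          rw [hc]
          split_ifs at hw ⊢ <;> omega
        · exact Fin.val_injective.injOn
      rw [Nat.card_Icc] at h1
      omega
    · intro v
      by_cases hv : v.val < 2 * b
      · refine ⟨⟨if v.val % 2 = 0 then v.val + 1 else v.val - 1, ?_⟩, ?_, ?_⟩
        · split_ifs <;> omega
        · intro h
          have := congrArg Fin.val h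
          simp only at this
          split_ifs at this <;> omega
        · rw [hf, hf]
          simp only
          split_ifs <;> omega
      · refine ⟨⟨if (v.val - 2 * b) % 3 = 2 then v.val - 1 else v.val + 1, ?_⟩, ?_, ?_⟩
        · have := v.isLt
          split_ifs <;> omega
        · intro h
          have := congrArg Fin.val h
          simp only at this
          split_ifs at this <;> omega
        · rw [hf, hf]
          simp only
          split_ifs <;> omega
  refine ⟨_, ⟨fibreGraph f, hmax, rfl⟩, ?_⟩
  have hdeg : ∀ v : Fin n, (fibreGraph f).degree v = 2 ↔ ¬ v.val < 2 * b := by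
    intro v
    constructor
    · intro h2 hv
      rw [← SimpleGraph.card_neighborFinset_eq_degree] at h2
      have h1 : 1 < ((fibreGraph f).neighborFinset v).card := by omega
      rw [Finset.one_lt_card] at h1
      obtain ⟨w, hw, w', hw', hne⟩ := h1
      rw [SimpleGraph.mem_neighborFinset] at hw hw'
      obtain ⟨hw1, hw2⟩ := hw
      obtain ⟨hw1', hw2'⟩ := hw'
      rw [hf, hf] at hw2 hw2'
      have e1 : v.val ≠ w.val := fun h => hw1 (Fin.ext h)
      have e2 : v.val ≠ w'.val := fun h => hw1' (Fin.ext h)
      have e3 : w.val ≠ w'.val := fun h => hne (Fin.ext h)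
      split_ifs at hw2 hw2' <;> omega
    · intro hv
      apply le_antisymm (deg_le_two _ hmax.1 v)
      rw [← SimpleGraph.card_neighborFinset_eq_degree]
      have hlt := v.isLt
      have : 1 < ((fibreGraph f).neighborFinset v).card := by
        rw [Finset.one_lt_card]
        refine ⟨⟨if (v.val - 2 * b) % 3 = 0 then v.val + 1 else
            if (v.val - 2 * b) % 3 = 1 then v.val - 1 else v.val - 1, ?_⟩, ?_,
          ⟨if (v.val - 2 * b) % 3 = 0 then v.val + 2 else
            if (v.val - 2 * b) % 3 = 1 then v.val + 1 else v.val - 2, ?_⟩, ?_, ?_⟩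
        · split_ifs <;> omega
        · rw [SimpleGraph.mem_neighborFinset]
          refine ⟨?_, ?_⟩
          · intro h
            have := congrArg Fin.val h
            simp only at this
            split_ifs at this <;> omega
          · rw [hf, hf]
            simp only
            split_ifs <;> omega
        · split_ifs <;> omega
        · rw [SimpleGraph.mem_neighborFinset]
          refine ⟨?_, ?_⟩
          · intro h
            have := congrArg Fin.val h
            simp only at this
            split_ifs at this <;> omega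
          · rw [hf, hf]
            simp only
            split_ifs <;> omega
        · intro h
          have := congrArg Fin.val h
          simp only at this
          split_ifs at this <;> omega
      omega
  have hcard : (Finset.univ.filter (fun v : Fin n => (fibreGraph f).degree v = 2)).card =
      n - 2 * b := by
    have h1 : (Finset.univ.filter (fun v : Fin n => (fibreGraph f).degree v = 2)) =
        Finset.univ.filter (fun v : Fin n => ¬ v.val < 2 * b) := by
      ext v; simp only [Finset.mem_filter, Finset.mem_univ, true_and]; exact hdeg v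
    rw [h1]
    have h2 := Finset.card_filter_add_card_filter_not (s := (Finset.univ : Finset (Fin n)))
      (fun v => v.val < 2 * b)
    rw [Finset.card_univ, Fintype.card_fin] at h2
    have h4 : (Finset.univ.filter (fun v : Fin n => v.val < 2 * b)).card = 2 * b := by
      rw [Fin.card_filter_val_lt]
      omega
    omega
  rcases max_edges _ hmax with ⟨-, h⟩ | h
  · rw [hcard] at h
    omega
  · -- impossible unless consistent
    have h1 := two_mul_ncard (fibreGraph f)
    have h5 : ∀ v : Fin n, (fibreGraph f).degree v =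
        1 + (if (fibreGraph f).degree v = 2 then 1 else 0) := by
      intro v
      have h6 := deg_le_two _ hmax.1 v
      have h7 : (fibreGraph f).degree v ≠ 0 := by
        intro h0
        have h8 : ∃ w, w ≠ v ∧ f w = f v := by
          by_cases hv : v.val < 2 * b
          · refine ⟨⟨if v.val % 2 = 0 then v.val + 1 else v.val - 1, ?_⟩, ?_, ?_⟩
            · split_ifs <;> omega
            · intro h
              have := congrArg Fin.val h
              simp only at this
              split_ifs at this <;> omega
            · rw [hf, hf]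
              simp only
              split_ifs <;> omega
          · have := (hdeg v).2 hv
            omega
        obtain ⟨w, hw1, hw2⟩ := h8
        rw [← SimpleGraph.card_neighborFinset_eq_degree, Finset.card_eq_zero] at h0
        have h9 : w ∈ (fibreGraph f).neighborFinset v := by
          rw [SimpleGraph.mem_neighborFinset]
          exact ⟨hw1.symm, hw2.symm⟩
        rw [h0] at h9
        exact absurd h9 (Finset.notMem_empty _)
      split_ifs with h10 <;> omega
    rw [Finset.sum_congr rfl (fun v _ => h5 v), Finset.sum_add_distrib, ← Finset.card_filter,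
      hcard] at h1
    simp only [Finset.sum_const, Finset.card_univ, Fintype.card_fin, smul_eq_mul, mul_one] at h1
    omega

theorem mem_cases {m : ℕ} (hm : m ∈ edgeNumbers excl n) :
    (2 * m % 3 = n % 3 ∧ m ≤ n) ∨ m + 1 = n := by
  classical
  obtain ⟨G, hG, rfl⟩ := hm
  rcases max_edges G hG with ⟨⟨t, ht⟩, h⟩ | h
  · left
    have h2 : (Finset.univ.filter (fun v => G.degree v = 2)).card ≤ n := by
      have := Finset.card_filter_le (Finset.univ : Finset (Fin n)) (fun v => G.degree v = 2)
      rwa [Finset.card_univ, Fintype.card_fin] at this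
    omega
  · exact Or.inr h

theorem mem_le {m : ℕ} (hm : m ∈ edgeNumbers excl n) : m ≤ n := by
  rcases mem_cases hm with h | h <;> omega

end count

theorem bdd (n : ℕ) : BddAbove (edgeNumbers excl n) := ⟨n, fun _ hm => mem_le hm⟩

theorem gap_le (n : ℕ) : gap excl n ≤ n := by
  unfold gap
  by_cases hne : (edgeNumbers excl n).Nonempty
  · have := mem_le (Nat.sSup_mem hne (bdd n))
    omega
  · rw [Set.not_nonempty_iff_eq_empty] at hne
    rw [hne]
    simp

theorem ncard_le (n : ℕ) : 3 * (edgeNumbers excl n).ncard ≤ gap excl n + 6 := by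
  classical
  set a := sInf (edgeNumbers excl n) with ha
  set b := sSup (edgeNumbers excl n) with hb
  have hgap : gap excl n = b - a := rfl
  let F : Finset ℕ := (Finset.Icc a b).filter (fun m => 2 * m % 3 = n % 3)
  have hF : F.card ≤ (b - a) / 3 + 1 := by
    have h1 : F.card ≤ (Finset.range ((b - a) / 3 + 1)).card := by
      apply Finset.card_le_card_of_injOn (fun m => (m - a) / 3)
      · intro m hm
        simp only [F, Finset.coe_filter, Finset.mem_Icc, Set.mem_ofPred_eq] at hm
        simp only [Finset.coe_range, Set.mem_Iio]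
        omega
      · intro m hm m' hm' h
        simp only [F, Finset.coe_filter, Finset.mem_Icc, Set.mem_ofPred_eq] at hm hm'
        simp only at h
        omega
    rwa [Finset.card_range] at h1
  have hsub : edgeNumbers excl n ⊆ ((insert (n - 1) F : Finset ℕ) : Set ℕ) := by
    intro m hm
    rw [Finset.mem_coe, Finset.mem_insert]
    rcases mem_cases hm with h | h
    · right
      simp only [F, Finset.mem_filter, Finset.mem_Icc]
      exact ⟨⟨Nat.sInf_le hm, le_csSup (bdd n) hm⟩, h.1⟩
    · left; omega
  have h2 := Set.ncard_le_ncard hsub (Finset.finite_toSet _)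
  rw [Set.ncard_coe_finset] at h2
  have h3 := Finset.card_insert_le (n - 1) F
  rw [hgap]
  omega

theorem le_gap (n : ℕ) : n ≤ 2 * gap excl n + 7 := by
  by_cases hn : n ≤ 7
  · omega
  push Not at hn
  have hlow : ∃ m ∈ edgeNumbers excl n, 2 * m ≤ n + 3 := by
    by_cases h2 : n % 2 = 0
    · obtain ⟨m, hm, h⟩ := exists_max (n := n) (n / 2) (by omega) (by
        have : n - 2 * (n / 2) = 0 := by omega
        rw [this]; exact dvd_zero _) (by omega)
      exact ⟨m, hm, by omega⟩
    · obtain ⟨m, hm, h⟩ := exists_max (n := n) ((n - 3) / 2) (by omega) (by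
        have : n - 2 * ((n - 3) / 2) = 3 := by omega
        rw [this]) (by omega)
      exact ⟨m, hm, by omega⟩
  have hhigh : ∃ m ∈ edgeNumbers excl n, n ≤ m + 2 := by
    obtain ⟨m, hm, h⟩ := exists_max (n := n) ((2 * n) % 3) (by omega) (by
      have : (n - 2 * ((2 * n) % 3)) % 3 = 0 := by omega
      exact Nat.dvd_of_mod_eq_zero this) (by omega)
    exact ⟨m, hm, by omega⟩
  obtain ⟨m, hm, h1⟩ := hlow
  obtain ⟨M, hM, h2⟩ := hhigh
  have h3 : sInf (edgeNumbers excl n) ≤ m := Nat.sInf_le hm
  have h4 : M ≤ sSup (edgeNumbers excl n) := le_csSup (bdd n) hM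
  unfold gap
  omega

/-- **Both Q1 and Q2 have a negative answer**, already for the set of the path on four vertices
and the claw, whose members are connected. Its class is linearly impure, its edge-number sets have
size at most a third of the gap plus 2, the difference between the gap and the size is unbounded,
and the ratio of the size to the gap does not tend to 1. -/
theorem result :
    Suitable excl ∧ (∀ H ∈ excl, H.2.Connected) ∧
    (∀ n, n ≤ 2 * gap excl n + 7) ∧
    (∀ n, 3 * (edgeNumbers excl n).ncard ≤ gap excl n + 6) ∧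
    (¬ ∃ C : ℕ, ∀ n, 1 ≤ n → gap excl n ≤ (edgeNumbers excl n).ncard + C) ∧
    0 < liminf (fun n : ℕ => (gap excl n : ℝ) / (n : ℝ)) atTop ∧
    ¬ Tendsto (fun n : ℕ => ((edgeNumbers excl n).ncard : ℝ) / (gap excl n : ℝ)) atTop
      (nhds 1) := by
  refine ⟨⟨⟨claw, Or.inr rfl⟩, ?_⟩, ?_, le_gap, ncard_le, ?_, ?_, ?_⟩
  · intro H hH
    rcases hH with rfl | rfl
    · refine ⟨(0 : Fin 4), (1 : Fin 4), ?_⟩
      change (SimpleGraph.pathGraph 4).Adj 0 1
      rw [SimpleGraph.pathGraph_adj]
      simp
    · refine ⟨(0 : Fin 4), (1 : Fin 4), ?_⟩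
      change (SimpleGraph.starGraph (0 : Fin 4)).Adj 0 1
      rw [SimpleGraph.starGraph_adj]
      simp
  · intro H hH
    rcases hH with rfl | rfl
    · exact SimpleGraph.pathGraph_connected 3
    · exact SimpleGraph.connected_starGraph (0 : Fin 4)
  · rintro ⟨C, hC⟩
    have h1 := hC (3 * C + 100) (by omega)
    have h2 := ncard_le (3 * C + 100)
    have h3 := le_gap (3 * C + 100)
    omega
  · have h1 : (1 / 4 : ℝ) ≤ liminf (fun n : ℕ => (gap excl n : ℝ) / (n : ℝ)) atTop := by
      apply Filter.le_liminf_of_le
      · apply Filter.IsBoundedUnder.isCoboundedUnder_ge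
        refine ⟨1, ?_⟩
        rw [Filter.eventually_map]
        filter_upwards [Filter.eventually_gt_atTop 0] with n hn
        rw [div_le_one (by exact_mod_cast hn)]
        exact_mod_cast gap_le n
      · filter_upwards [Filter.eventually_ge_atTop 14] with n hn
        have hpos : (0 : ℝ) < (n : ℝ) := by
          have : 0 < n := by omega
          exact_mod_cast this
        rw [le_div_iff₀ hpos]
        have h2 := le_gap n
        have h3 : (n : ℝ) ≤ 2 * (gap excl n : ℝ) + 7 := by exact_mod_cast h2
        have h4 : (14 : ℝ) ≤ (n : ℝ) := by exact_mod_cast hn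
        linarith
    linarith
  · intro ht
    have h1 : ∀ᶠ n : ℕ in atTop,
        ((edgeNumbers excl n).ncard : ℝ) / (gap excl n : ℝ) ≤ 1 / 2 := by
      filter_upwards [Filter.eventually_ge_atTop 40] with n hn
      have h2 := le_gap n
      have h3 := ncard_le n
      have hpos : (0 : ℝ) < (gap excl n : ℝ) := by
        have : 0 < gap excl n := by omega
        exact_mod_cast this
      rw [div_le_iff₀ hpos]
      have h4 : 2 * (edgeNumbers excl n).ncard ≤ gap excl n := by omega
      have h5 : 2 * ((edgeNumbers excl n).ncard : ℝ) ≤ (gap excl n : ℝ) := by exact_mod_cast h4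
      linarith
    have h2 := le_of_tendsto ht h1
    norm_num at h2

end Pool.Agent.Results.MP_4dddeb_co.ThreeVertexComponents
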